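import Pool.Agent.Q8.TM.Final

/-!
# MP_ed80cb_an, Q1: weak coercivity does not imply the Trudinger-Moser inequality with remainder
-/

set_option autoImplicit false

namespace Pool.Agent.Results.MP_ed80cb_an.CoerciveUnbounded

open Q8.TM MeasureTheory
open scoped ContDiff

/-- For every nonempty bounded open subset `Ω` of the plane (for instance the unit disc) there is a
potential `V`, of class `C^∞` on `Ω` and in the local Kato class, such that
`Q_V(u) = ∫_Ω |∇u|² - ∫_Ω V u²` is weakly coercive, while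
`sup {∫_Ω exp (4 π u²) : u ∈ C_0^∞(Ω), Q_V(u) ≤ 1} = ∞`. -/
theorem result (Ω : Set Plane) (ho : IsOpen Ω) (hb : Bornology.IsBounded Ω) (hne : Ω.Nonempty) :
    ∃ V : Plane → ℝ, ContDiffOn ℝ ∞ V Ω ∧ LocalKato Ω V ∧ WeaklyCoercive Ω (energy Ω V) ∧
      ∀ M : ℝ, ∃ u : Plane → ℝ, IsTest Ω u ∧ energy Ω V u ≤ 1 ∧
        M < ∫ x in Ω, Real.exp (4 * Real.pi * u x ^ 2) :=
  main Ω ho hb hne

end Pool.Agent.Results.MP_ed80cb_an.CoerciveUnbounded
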